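import Mathlib

set_option autoImplicit false

/-!
# Systems of equations over plactic monoids of infinite rank: definitions and the key system

Recursive total orders, the plactic monoid of a recursive total order, finite systems of equations
with constants, their codes, and a system of four equations in one variable with constants `a < b`
which has a solution if and only if there is a letter strictly between `a` and `b`.
-/

namespace Pool.Agent.X238.Plac

/-- A recursive total order: a decidable set `mem` of natural numbers, together with a decidable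
relation `lt` which is a strict total order on this set. -/
structure RecOrder where
  mem : ℕ → Prop
  lt : ℕ → ℕ → Prop
  mem_computable : ComputablePred mem
  lt_computable : ComputablePred fun p : ℕ × ℕ => lt p.1 p.2
  irrefl : ∀ a, mem a → ¬ lt a a
  trans : ∀ a b c, mem a → mem b → mem c → lt a b → lt b c → lt a c
  total : ∀ a b, mem a → mem b → a ≠ b → lt a b ∨ lt b a

/-- The set of letters. -/
abbrev RecOrder.Carrier (L : RecOrder) : Type := {a : ℕ // L.mem a}

/-- `a < b` for letters -/
def RecOrder.less (L : RecOrder) (a b : L.Carrier) : Prop := L.lt a.1 b.1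

/-- The Knuth relations `zxy = xzy` for `x ≤ y < z` and `yxz = yzx` for `x < y ≤ z`. -/
inductive Knuth (L : RecOrder) : FreeMonoid L.Carrier → FreeMonoid L.Carrier → Prop
  | one (x y z : L.Carrier) : (x = y ∨ L.less x y) → L.less y z →
      Knuth L (FreeMonoid.of z * FreeMonoid.of x * FreeMonoid.of y)
        (FreeMonoid.of x * FreeMonoid.of z * FreeMonoid.of y)
  | two (x y z : L.Carrier) : L.less x y → (y = z ∨ L.less y z) →
      Knuth L (FreeMonoid.of y * FreeMonoid.of x * FreeMonoid.of z)
        (FreeMonoid.of y * FreeMonoid.of z * FreeMonoid.of x)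

/-- The plactic monoid `P(L)`. -/
abbrev Plactic (L : RecOrder) : Type := PresentedMonoid (Knuth L)

/-- A letter as an element of the plactic monoid. -/
abbrev letter (L : RecOrder) (a : L.Carrier) : Plactic L := PresentedMonoid.of (Knuth L) a

/-- Words over the variables `X_0, X_1, …` (`Sum.inl i` is `X_i`) and the letters of `L`. -/
abbrev EqWord (L : RecOrder) : Type := List (ℕ ⊕ L.Carrier)

/-- The value of a word under an assignment of elements of `P(L)` to the variables. -/
def value (L : RecOrder) (f : ℕ → Plactic L) (w : EqWord L) : Plactic L :=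
  (w.map (Sum.elim f (letter L))).prod

/-- A finite system of equations has a solution in `P(L)`. -/
def Solvable (L : RecOrder) (E : List (EqWord L × EqWord L)) : Prop :=
  ∃ f : ℕ → Plactic L, ∀ e ∈ E, value L f e.1 = value L f e.2

/-- Codes of words: the letters are replaced by their codes. -/
def codeWord {L : RecOrder} (w : EqWord L) : List (ℕ ⊕ ℕ) := w.map (Sum.map id Subtype.val)

/-- Codes of systems of equations. -/
def codeSys {L : RecOrder} (E : List (EqWord L × EqWord L)) :
    List (List (ℕ ⊕ ℕ) × List (ℕ ⊕ ℕ)) := E.map fun e => (codeWord e.1, codeWord e.2)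

/-- The Diophantine problem for `P(L)`, as the set of the codes of the systems which have a
solution. -/
def Dioph (L : RecOrder) (c : List (List (ℕ ⊕ ℕ) × List (ℕ ⊕ ℕ))) : Prop :=
  ∃ E : List (EqWord L × EqWord L), codeSys E = c ∧ Solvable L E

theorem codeWord_injective {L : RecOrder} : Function.Injective (codeWord (L := L)) :=
  List.map_injective_iff.2 (Function.injective_id.sumMap Subtype.val_injective)

theorem codeSys_injective {L : RecOrder} : Function.Injective (codeSys (L := L)) := by
  refine List.map_injective_iff.2 ?_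
  rintro ⟨a, b⟩ ⟨a', b'⟩ h
  simp only [Prod.mk.injEq] at h
  rw [codeWord_injective h.1, codeWord_injective h.2]

theorem dioph_codeSys {L : RecOrder} (E : List (EqWord L × EqWord L)) :
    Dioph L (codeSys E) ↔ Solvable L E := by
  constructor
  · rintro ⟨E', h, hs⟩
    rwa [← codeSys_injective h]
  · intro h
    exact ⟨E, rfl, h⟩

theorem knuth_one (L : RecOrder) {x y z : L.Carrier} (h1 : x = y ∨ L.less x y)
    (h2 : L.less y z) : letter L z * letter L x * letter L y =
      letter L x * letter L z * letter L y := by
  have h : conGen (Knuth L) (FreeMonoid.of z * FreeMonoid.of x * FreeMonoid.of y)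
        (FreeMonoid.of x * FreeMonoid.of z * FreeMonoid.of y) := ConGen.Rel.of _ _ (.one x y z h1 h2)
  exact (Con.eq _).2 h

theorem knuth_two (L : RecOrder) {x y z : L.Carrier} (h1 : L.less x y)
    (h2 : y = z ∨ L.less y z) : letter L y * letter L x * letter L z =
      letter L y * letter L z * letter L x := by
  have h : conGen (Knuth L) (FreeMonoid.of y * FreeMonoid.of x * FreeMonoid.of z)
        (FreeMonoid.of y * FreeMonoid.of z * FreeMonoid.of x) := ConGen.Rel.of _ _ (.two x y z h1 h2)
  exact (Con.eq _).2 h

/-- The normal forms `(ba)^k a^i b^j` of the elements of the plactic monoid on `a < b`. -/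
@[ext] structure Tri where
  k : ℕ
  i : ℕ
  j : ℕ

instance : Mul Tri := ⟨fun x y => ⟨x.k + y.k + min x.j y.i, x.i + (y.i - x.j), (x.j - y.i) + y.j⟩⟩

instance : One Tri := ⟨⟨0, 0, 0⟩⟩

theorem Tri.mul_def (x y : Tri) :
    x * y = ⟨x.k + y.k + min x.j y.i, x.i + (y.i - x.j), (x.j - y.i) + y.j⟩ := rfl

theorem Tri.one_def : (1 : Tri) = ⟨0, 0, 0⟩ := rfl

instance : Monoid Tri where
  mul_assoc x y z := by
    obtain ⟨k, i, j⟩ := x
    obtain ⟨k', i', j'⟩ := y
    obtain ⟨k'', i'', j''⟩ := z
    simp only [Tri.mul_def, Tri.one_def, Tri.mk.injEq]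
    refine ⟨?_, ?_, ?_⟩ <;> omega
  one_mul x := by
    obtain ⟨k, i, j⟩ := x
    simp only [Tri.mul_def, Tri.one_def, Tri.mk.injEq]
    refine ⟨?_, ?_, ?_⟩ <;> omega
  mul_one x := by
    obtain ⟨k, i, j⟩ := x
    simp only [Tri.mul_def, Tri.one_def, Tri.mk.injEq]
    refine ⟨?_, ?_, ?_⟩ <;> omega

/-- The images of the letters. -/
def img (L : RecOrder) (a b : L.Carrier) (x : L.Carrier) : Tri :=
  if x = a then ⟨0, 1, 0⟩ else if x = b then ⟨0, 0, 1⟩ else 1

/-- If there is no letter strictly between `a` and `b`, erasing the letters other than `a`, `b` is a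
homomorphism. -/
theorem img_rel (L : RecOrder) {a b : L.Carrier} (hab : L.less a b)
    (h : ∀ c : L.Carrier, L.less a c → ¬ L.less c b) (u v : FreeMonoid L.Carrier)
    (huv : Knuth L u v) : FreeMonoid.lift (img L a b) u = FreeMonoid.lift (img L a b) v := by
  have irr : ∀ c : L.Carrier, ¬ L.less c c := fun c => L.irrefl _ c.2
  have tr : ∀ {c d e : L.Carrier}, L.less c d → L.less d e → L.less c e :=
    fun {c d e} h1 h2 => L.trans _ _ _ c.2 d.2 e.2 h1 h2
  have tot : ∀ {c d : L.Carrier}, c ≠ d → L.less c d ∨ L.less d c := fun {c d} h =>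
    L.total _ _ c.2 d.2 (fun e => h (Subtype.ext e))
  have hne : b ≠ a := fun e => irr a (by rw [e] at hab; exact hab)
  have ia : img L a b a = ⟨0, 1, 0⟩ := if_pos rfl
  have ib : img L a b b = ⟨0, 0, 1⟩ := by rw [img, if_neg hne, if_pos rfl]
  have io : ∀ c, c ≠ a → c ≠ b → img L a b c = 1 := fun c h1 h2 => by
    rw [img, if_neg h1, if_neg h2]
  cases huv with
  | one x y z h1 h2 =>
    simp only [map_mul, FreeMonoid.lift_eval_of]
    by_cases hza : z = a
    · subst hza
      have hxa : x ≠ z := by
        rintro rfl
        rcases h1 with rfl | h1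
        · exact irr _ h2
        · exact irr _ (tr h1 h2)
      have hxb : x ≠ b := by
        rintro rfl
        rcases h1 with rfl | h1
        · exact irr _ (tr h2 hab)
        · exact irr _ (tr (tr h1 h2) hab)
      rw [io x hxa hxb, mul_one, one_mul]
    by_cases hzb : z = b
    · subst hzb
      by_cases hxa : x = a
      · subst hxa
        have hy : y = x := by
          rcases h1 with h1 | h1
          · exact h1.symm
          · exact absurd h2 (h _ h1)
        subst hy
        rw [ia, ib]
        rfl
      · have hxb : x ≠ z := by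
          rintro rfl
          rcases h1 with rfl | h1
          · exact irr _ h2
          · exact irr _ (tr h1 h2)
        rw [io x hxa hxb, mul_one, one_mul]
    · rw [io z hza hzb, mul_one, one_mul]
  | two x y z h1 h2 =>
    simp only [map_mul, FreeMonoid.lift_eval_of]
    by_cases hxa : x = a
    · subst hxa
      by_cases hzb : z = b
      · subst hzb
        have hy : y = z := by
          rcases h2 with h2 | h2
          · exact h2
          · exact absurd h2 (h _ h1)
        subst hy
        rw [ia, ib]
        rfl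
      · have hza : z ≠ x := by
          rintro rfl
          rcases h2 with rfl | h2
          · exact irr _ h1
          · exact irr _ (tr h1 h2)
        rw [io z hza hzb, mul_one, mul_one]
    by_cases hxb : x = b
    · subst hxb
      have hza : z ≠ a := by
        rintro rfl
        rcases h2 with rfl | h2
        · exact irr _ (tr hab h1)
        · exact irr _ (tr hab (tr h1 h2))
      have hzb : z ≠ x := by
        rintro rfl
        rcases h2 with rfl | h2
        · exact irr _ h1
        · exact irr _ (tr h1 h2)
      rw [io z hza hzb, mul_one, mul_one]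
    · rw [io x hxa hxb, mul_one, mul_one]

/-- The four equations `abX = baX`, `Xab = Xba`, `aXa = Xaa`, `XaX = XXa`. -/
def sys (L : RecOrder) (a b : L.Carrier) : List (EqWord L × EqWord L) :=
  [([.inr a, .inr b, .inl 0], [.inr b, .inr a, .inl 0]),
   ([.inl 0, .inr a, .inr b], [.inl 0, .inr b, .inr a]),
   ([.inr a, .inl 0, .inr a], [.inl 0, .inr a, .inr a]),
   ([.inl 0, .inr a, .inl 0], [.inl 0, .inl 0, .inr a])]

theorem solvable_sys (L : RecOrder) {a b : L.Carrier} (hab : L.less a b) :
    Solvable L (sys L a b) ↔ ∃ c : L.Carrier, L.less a c ∧ L.less c b := by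
  constructor
  · rintro ⟨f, hf⟩
    by_contra hc
    push Not at hc
    have h : ∀ c : L.Carrier, L.less a c → ¬ L.less c b := fun c h1 h2 => (hc c h1) h2
    have hne : b ≠ a := fun e => L.irrefl _ a.2 (by rw [e] at hab; exact hab)
    have ia : img L a b a = ⟨0, 1, 0⟩ := if_pos rfl
    have ib : img L a b b = ⟨0, 0, 1⟩ := by rw [img, if_neg hne, if_pos rfl]
    let φ : Plactic L →* Tri := PresentedMonoid.lift (img L a b) (img_rel L hab h)
    have φl : ∀ x, φ (letter L x) = img L a b x := fun x => rfl
    simp only [sys, List.forall_mem_cons, List.not_mem_nil, IsEmpty.forall_iff, implies_true,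
      and_true, value, List.map_cons, List.map_nil, Sum.elim_inl, Sum.elim_inr, List.prod_cons,
      List.prod_nil, mul_one] at hf
    obtain ⟨h1, h2, h3, h4⟩ := hf
    have h1 := congrArg φ h1
    have h2 := congrArg φ h2
    have h3 := congrArg φ h3
    have h4 := congrArg φ h4
    simp only [map_mul, φl, ia, ib] at h1 h2 h3 h4
    obtain ⟨k, i, j⟩ := φ (f 0)
    simp only [Tri.mul_def, Tri.mk.injEq] at h1 h2 h3 h4
    omega
  · rintro ⟨c, h1, h2⟩
    refine ⟨fun _ => letter L c, ?_⟩
    simp only [sys, List.forall_mem_cons, List.not_mem_nil, IsEmpty.forall_iff, implies_true,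
      and_true, value, List.map_cons, List.map_nil, Sum.elim_inl, Sum.elim_inr, List.prod_cons,
      List.prod_nil, mul_one, ← mul_assoc]
    refine ⟨?_, ?_, ?_, ?_⟩
    · exact (knuth_one L (Or.inr h1) h2).symm
    · exact knuth_two L h1 (Or.inr h2)
    · exact (knuth_one L (Or.inl rfl) h1).symm
    · exact knuth_two L h1 (Or.inl rfl)

/-- the code of the system `sys` -/
def sysCode (a b : ℕ) : List (List (ℕ ⊕ ℕ) × List (ℕ ⊕ ℕ)) :=
  [([.inr a, .inr b, .inl 0], [.inr b, .inr a, .inl 0]),
   ([.inl 0, .inr a, .inr b], [.inl 0, .inr b, .inr a]),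
   ([.inr a, .inl 0, .inr a], [.inl 0, .inr a, .inr a]),
   ([.inl 0, .inr a, .inl 0], [.inl 0, .inl 0, .inr a])]

theorem dioph_sysCode (L : RecOrder) {a b : ℕ} (ha : L.mem a) (hb : L.mem b) (hab : L.lt a b) :
    Dioph L (sysCode a b) ↔ ∃ c, L.mem c ∧ L.lt a c ∧ L.lt c b := by
  have : sysCode a b = codeSys (sys L ⟨a, ha⟩ ⟨b, hb⟩) := rfl
  rw [this, dioph_codeSys, solvable_sys L (a := ⟨a, ha⟩) (b := ⟨b, hb⟩) hab]
  constructor
  · rintro ⟨c, h⟩
    exact ⟨c.1, c.2, h⟩
  · rintro ⟨c, hc, h⟩
    exact ⟨⟨c, hc⟩, h⟩

theorem sysCode_computable : Computable fun p : ℕ × ℕ => sysCode p.1 p.2 := by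
  have i0 : Computable (fun _ : ℕ × ℕ => (Sum.inl 0 : ℕ ⊕ ℕ)) := Computable.const _
  have ia : Computable (fun p : ℕ × ℕ => (Sum.inr p.1 : ℕ ⊕ ℕ)) :=
    Primrec.sumInr.to_comp.comp Computable.fst
  have ib : Computable (fun p : ℕ × ℕ => (Sum.inr p.2 : ℕ ⊕ ℕ)) :=
    Primrec.sumInr.to_comp.comp Computable.snd
  have cons : ∀ {α : Type} [Primcodable α] {f : ℕ × ℕ → α} {g : ℕ × ℕ → List α},
      Computable f → Computable g → Computable (fun p => f p :: g p) :=
    fun hf hg => Computable.list_cons.comp hf hg
  have nil : ∀ {α : Type} [Primcodable α], Computable (fun _ : ℕ × ℕ => ([] : List α)) :=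
    fun {α} _ => Computable.const _
  exact cons (.pair (cons ia (cons ib (cons i0 nil))) (cons ib (cons ia (cons i0 nil))))
    (cons (.pair (cons i0 (cons ia (cons ib nil))) (cons i0 (cons ib (cons ia nil))))
    (cons (.pair (cons ia (cons i0 (cons ia nil))) (cons i0 (cons ia (cons ia nil))))
    (cons (.pair (cons i0 (cons ia (cons i0 nil))) (cons i0 (cons i0 (cons ia nil)))) nil)))

end Pool.Agent.X238.Plac
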