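import Pool.Agent.X238.Plac.Basic

set_option autoImplicit false

/-!
# Recursive copies of the order of the natural numbers with undecidable betweenness
-/

namespace Pool.Agent.X238.Plac

open Nat.Partrec (Code)
open Nat.Partrec.Code

/-- `c` halts on `n` within `k` steps, but not within `k - 1` steps -/
def Fst (c : Code) (n k : ℕ) : Prop :=
  (evaln k c n).isSome = true ∧ (evaln (k - 1) c n).isSome = false

instance (c : Code) (n k : ℕ) : Decidable (Fst c n k) := by unfold Fst; infer_instance

theorem fst_unique {c : Code} {n k l : ℕ} (hk : Fst c n k) (hl : Fst c n l) : k = l := by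
  have key : ∀ {k l : ℕ}, Fst c n k → Fst c n l → ¬ k < l := by
    intro k l hk hl h
    obtain ⟨x, hx⟩ := Option.isSome_iff_exists.1 hk.1
    have h1 : x ∈ evaln (l - 1) c n := evaln_mono (by omega) hx
    have h2 := hl.2
    rw [Option.mem_def] at h1
    rw [h1] at h2
    simp at h2
  have h1 := key hk hl
  have h2 := key hl hk
  omega

theorem exists_fst {c : Code} {n : ℕ} : (eval c n).Dom ↔ ∃ k, Fst c n k := by
  constructor
  · intro h
    have h1 : ∃ k, (evaln k c n).isSome = true := by
      obtain ⟨x, hx⟩ := Part.dom_iff_mem.1 h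
      obtain ⟨k, hk⟩ := evaln_complete.1 hx
      exact ⟨k, by rw [Option.mem_def] at hk; rw [hk]; rfl⟩
    classical
    refine ⟨Nat.find h1, Nat.find_spec h1, ?_⟩
    by_cases h0 : Nat.find h1 = 0
    · rw [h0]
      simp [evaln]
    · have := Nat.find_min h1 (m := Nat.find h1 - 1) (by omega)
      simpa using this
  · rintro ⟨k, hk, -⟩
    obtain ⟨x, hx⟩ := Option.isSome_iff_exists.1 hk
    exact Part.dom_iff_mem.2 ⟨x, evaln_sound hx⟩

/-- position of the element `m` -/
def key (c : Code) (m : ℕ) : ℕ :=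
  if m % 3 = 0 then 4 * (m / 3)
  else if m % 3 = 1 then 4 * (m / 3) + 2
  else if Fst c (Nat.unpair (m / 3)).1 (Nat.unpair (m / 3)).2 then
    4 * (Nat.unpair (m / 3)).1 + 1
  else 4 * (m / 3) + 3

theorem key_injective (c : Code) : Function.Injective (key c) := by
  intro m m' h
  unfold key at h
  split_ifs at h <;> try omega
  rename_i h1 h2 h3 h1' h2' h3'
  have e : (Nat.unpair (m / 3)).1 = (Nat.unpair (m' / 3)).1 := by omega
  rw [e] at h3
  have e2 := fst_unique h3 h3'
  have e3 : m / 3 = m' / 3 := by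
    rw [← Nat.pair_unpair (m / 3), ← Nat.pair_unpair (m' / 3), e, e2]
  omega

theorem key_primrec (c : Code) : Primrec (key c) := by
  have hm3 : Primrec (fun m : ℕ => m % 3) := Primrec.nat_mod.comp Primrec.id (Primrec.const 3)
  have hd3 : Primrec (fun m : ℕ => m / 3) := Primrec.nat_div.comp Primrec.id (Primrec.const 3)
  have h1 : Primrec (fun m : ℕ => (Nat.unpair (m / 3)).1) := Primrec.fst.comp (Primrec.unpair.comp hd3)
  have h2 : Primrec (fun m : ℕ => (Nat.unpair (m / 3)).2) := Primrec.snd.comp (Primrec.unpair.comp hd3)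
  have hev : ∀ {f : ℕ → ℕ}, Primrec f → Primrec (fun m : ℕ =>
      (evaln (f m) c (Nat.unpair (m / 3)).1).isSome) := by
    intro f hf
    refine Primrec.option_isSome.comp ?_
    exact Nat.Partrec.Code.primrec_evaln.comp (Primrec.pair (Primrec.pair hf (Primrec.const c)) h1)
  have hF : PrimrecPred (fun m : ℕ => Fst c (Nat.unpair (m / 3)).1 (Nat.unpair (m / 3)).2) := by
    unfold Fst
    refine PrimrecPred.and ?_ ?_
    · exact Primrec.eq.comp (hev h2) (Primrec.const true)
    · exact Primrec.eq.comp (hev (Primrec.nat_sub.comp h2 (Primrec.const 1))) (Primrec.const false)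
  have e0 : PrimrecPred (fun m : ℕ => m % 3 = 0) := Primrec.eq.comp hm3 (Primrec.const 0)
  have e1 : PrimrecPred (fun m : ℕ => m % 3 = 1) := Primrec.eq.comp hm3 (Primrec.const 1)
  have lin : ∀ {f : ℕ → ℕ} (r : ℕ), Primrec f → Primrec (fun m : ℕ => 4 * f m + r) := by
    intro f r hf
    exact Primrec.nat_add.comp (Primrec.nat_mul.comp (Primrec.const 4) hf) (Primrec.const r)
  exact Primrec.ite e0 (lin 0 hd3) (Primrec.ite e1 (lin 2 hd3) (Primrec.ite hF (lin 1 h1) (lin 3 hd3)))

/-- the recursive total order -/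
def ord (c : Code) : RecOrder where
  mem := fun _ => True
  lt := fun a b => key c a < key c b
  mem_computable := ⟨fun _ => isTrue trivial, Computable.const _⟩
  lt_computable := by
    have : PrimrecPred (fun p : ℕ × ℕ => key c p.1 < key c p.2) :=
      Primrec.nat_lt.comp ((key_primrec c).comp Primrec.fst) ((key_primrec c).comp Primrec.snd)
    obtain ⟨_, h⟩ := this
    exact ⟨inferInstance, h.to_comp⟩
  irrefl := fun _ _ => lt_irrefl _
  trans := fun _ _ _ _ _ _ h1 h2 => lt_trans h1 h2
  total := fun a b _ _ h => by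
    rcases lt_trichotomy (key c a) (key c b) with h1 | h1 | h1
    · exact Or.inl h1
    · exact absurd (key_injective c h1) h
    · exact Or.inr h1

/-- the order is isomorphic to the order of the natural numbers -/
theorem ord_iso (c : Code) : ∃ e : (ord c).Carrier ≃ ℕ, ∀ a b, (ord c).less a b ↔ e a < e b := by
  classical
  have hinf : (Set.range (key c)).Infinite := Set.infinite_range_of_injective (key_injective c)
  haveI : Infinite (Set.range (key c)) := hinf.to_subtype
  let o := Nat.Subtype.orderIsoOfNat (Set.range (key c))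
  let e1 : (ord c).Carrier ≃ ℕ := ⟨Subtype.val, fun n => ⟨n, trivial⟩, fun _ => rfl, fun _ => rfl⟩
  let e2 : ℕ ≃ Set.range (key c) := Equiv.ofInjective _ (key_injective c)
  refine ⟨(e1.trans e2).trans o.toEquiv.symm, fun a b => ?_⟩
  change key c a.1 < key c b.1 ↔ o.symm (e2 a.1) < o.symm (e2 b.1)
  rw [o.symm.lt_iff_lt]
  rfl

theorem between_iff (c : Code) (n : ℕ) :
    (∃ x, (ord c).lt (3 * n) x ∧ (ord c).lt x (3 * n + 1)) ↔ (eval c n).Dom := by
  have k0 : key c (3 * n) = 4 * n := by
    unfold key
    rw [if_pos (by omega)]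
    omega
  have k1 : key c (3 * n + 1) = 4 * n + 2 := by
    unfold key
    rw [if_neg (by omega), if_pos (by omega)]
    omega
  change (∃ x, key c (3 * n) < key c x ∧ key c x < key c (3 * n + 1)) ↔ _
  rw [k0, k1, exists_fst]
  constructor
  · rintro ⟨x, h1, h2⟩
    unfold key at h1 h2
    split_ifs at h1 h2 <;> try omega
    rename_i h3 h4 h5
    have : (Nat.unpair (x / 3)).1 = n := by omega
    rw [this] at h5
    exact ⟨_, h5⟩
  · rintro ⟨k, hk⟩
    have : key c (3 * Nat.pair n k + 2) = 4 * n + 1 := by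
      unfold key
      have e : (3 * Nat.pair n k + 2) / 3 = Nat.pair n k := by omega
      rw [if_neg (by omega), if_neg (by omega), e, Nat.unpair_pair, if_pos hk]
    exact ⟨3 * Nat.pair n k + 2, by omega, by omega⟩

theorem dioph_iff (c : Code) (n : ℕ) :
    Dioph (ord c) (sysCode (3 * n) (3 * n + 1)) ↔ (eval c n).Dom := by
  have hlt : (ord c).lt (3 * n) (3 * n + 1) := by
    change key c (3 * n) < key c (3 * n + 1)
    unfold key
    rw [if_pos (by omega), if_neg (by omega), if_pos (by omega)]
    omega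
  rw [dioph_sysCode (ord c) trivial trivial hlt, ← between_iff]
  constructor
  · rintro ⟨x, -, h⟩
    exact ⟨x, h⟩
  · rintro ⟨x, h⟩
    exact ⟨x, trivial, h⟩

theorem exists_code (A : ℕ → Prop) (hA : REPred A) : ∃ c : Code, ∀ n, (eval c n).Dom ↔ A n := by
  have h : Partrec fun n => Part.assert (A n) fun _ => Part.some () := hA
  have h' : Nat.Partrec fun n => (Part.assert (A n) fun _ => Part.some ()).map fun _ => 0 :=
    Partrec.nat_iff.1 (h.map ((Computable.const 0).comp Computable.fst).to₂)
  obtain ⟨c, hc⟩ := Nat.Partrec.Code.exists_code.1 h'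
  refine ⟨c, fun n => ?_⟩
  rw [hc]
  simp [Part.assert]

theorem reduction (A : ℕ → Prop) (hA : REPred A) : ∃ L : RecOrder,
    (∃ e : L.Carrier ≃ ℕ, ∀ a b, L.less a b ↔ e a < e b) ∧ A ≤₀ Dioph L := by
  obtain ⟨c, hc⟩ := exists_code A hA
  refine ⟨ord c, ord_iso c, fun n => sysCode (3 * n) (3 * n + 1), ?_, fun n => ?_⟩
  · have h3 : Primrec (fun n : ℕ => 3 * n) := Primrec.nat_mul.comp (Primrec.const 3) Primrec.id
    have h4 : Primrec (fun n : ℕ => 3 * n + 1) := Primrec.nat_add.comp h3 (Primrec.const 1)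
    exact sysCode_computable.comp (h3.to_comp.pair h4.to_comp)
  · rw [dioph_iff, hc]

theorem exists_re_not_computable : ∃ A : ℕ → Prop, REPred A ∧ ¬ ComputablePred A := by
  refine ⟨fun m => (eval (Denumerable.ofNat Code m) 0).Dom, ?_, ?_⟩
  · exact (Nat.Partrec.Code.eval_part.comp (Computable.ofNat Code) (Computable.const 0)).dom_re
  · intro h
    refine ComputablePred.halting_problem 0 ?_
    refine ComputablePred.computable_of_manyOneReducible ⟨Encodable.encode, Computable.encode,
      fun c => ?_⟩ h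
    simp only [Denumerable.ofNat_encode]

end Pool.Agent.X238.Plac
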