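import Mathlib

set_option autoImplicit false

/-!
# Linear orders whose finite maximal blocks code a set
-/

namespace Pool.Agent.X238.Plac

/-- `b` is the immediate successor of `a` -/
def AdjR {α : Type} (r : α → α → Prop) (a b : α) : Prop := r a b ∧ ∀ c, r a c → ¬ r c b

/-- there is a maximal block of `n` consecutive elements -/
def BlockR {α : Type} (r : α → α → Prop) (n : ℕ) : Prop :=
  ∃ y : ℕ → α, (∀ i, i + 1 < n → AdjR r (y i) (y (i + 1))) ∧ (∀ z, ¬ AdjR r z (y 0)) ∧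
    ∀ z, ¬ AdjR r (y (n - 1)) z

theorem AdjR.map_iff {α β : Type} {r : α → α → Prop} {s : β → β → Prop} (e : α ≃ β)
    (he : ∀ a b, r a b ↔ s (e a) (e b)) (a b : α) : AdjR r a b ↔ AdjR s (e a) (e b) := by
  unfold AdjR
  rw [he a b]
  refine and_congr_right fun _ => ⟨fun h c => ?_, fun h c => ?_⟩
  · have := h (e.symm c)
    rwa [he, he, e.apply_symm_apply] at this
  · rw [he, he]
    exact h (e c)

theorem BlockR.map {α β : Type} {r : α → α → Prop} {s : β → β → Prop} (e : α ≃ β)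
    (he : ∀ a b, r a b ↔ s (e a) (e b)) {n : ℕ} (h : BlockR r n) : BlockR s n := by
  obtain ⟨y, h1, h2, h3⟩ := h
  refine ⟨fun i => e (y i), fun i hi => ?_, fun z => ?_, fun z => ?_⟩
  · rw [← AdjR.map_iff e he]
    exact h1 i hi
  · have := h2 (e.symm z)
    rwa [AdjR.map_iff e he, e.apply_symm_apply] at this
  · have := h3 (e.symm z)
    rwa [AdjR.map_iff e he, e.apply_symm_apply] at this

theorem BlockR.map_iff {α β : Type} {r : α → α → Prop} {s : β → β → Prop} (e : α ≃ β)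
    (he : ∀ a b, r a b ↔ s (e a) (e b)) {n : ℕ} : BlockR r n ↔ BlockR s n := by
  refine ⟨fun h => h.map e he, fun h => h.map e.symm fun a b => ?_⟩
  rw [he, e.apply_symm_apply, e.apply_symm_apply]

variable (G : ℕ → ℕ → ℕ → Prop)

/-- the level `j` is reached -/
def LevOK (n j : ℕ) : Prop := ∀ x < j, ∃ y, G n x y

/-- all levels are reached -/
def TT (n : ℕ) : Prop := ∀ x, ∃ y, G n x y

/-- the elements of the `n`th part -/
def InZ (n : ℕ) (q : ℚ) : Prop :=
  (∃ p : ℕ, q = p) ∨ ∃ j p : ℕ, LevOK G n j ∧ q = p / 2 ^ j ∧ (n : ℚ) + 1 < q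

/-- the order -/
abbrev ZZ : Type := {a : ℕ × ℚ // InZ G a.1 a.2}

def rZ (a b : ZZ G) : Prop := a.1.1 < b.1.1 ∨ (a.1.1 = b.1.1 ∧ a.1.2 < b.1.2)

variable {G}

theorem LevOK.mono {n j k : ℕ} (h : LevOK G n j) (hk : k ≤ j) : LevOK G n k :=
  fun x hx => h x (by omega)

theorem InZ.nat (n k : ℕ) : InZ G n (k : ℚ) := Or.inl ⟨k, rfl⟩

theorem InZ.nonneg {n : ℕ} {q : ℚ} (h : InZ G n q) : 0 ≤ q := by
  rcases h with ⟨p, rfl⟩ | ⟨j, p, -, rfl, -⟩ <;> positivity

theorem InZ.isNat {n : ℕ} {q : ℚ} (h : InZ G n q) (hq : q ≤ (n : ℚ) + 1) : ∃ p : ℕ, q = p := by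
  rcases h with h | ⟨j, p, -, -, h⟩
  · exact h
  · exact absurd hq (not_le.2 h)

theorem InZ.dyadic {n : ℕ} {q : ℚ} (h : InZ G n q) : ∃ p j : ℕ, LevOK G n j ∧ q = p / 2 ^ j := by
  rcases h with ⟨p, rfl⟩ | ⟨j, p, h, rfl, -⟩
  · exact ⟨p, 0, fun x hx => absurd hx (by omega), by simp⟩
  · exact ⟨p, j, h, rfl⟩

theorem adj_same {a b : ZZ G} (h : AdjR (rZ G) a b) : a.1.1 = b.1.1 ∧ a.1.2 < b.1.2 := by
  obtain ⟨⟨n, q⟩, ha⟩ := a
  obtain ⟨⟨n', q'⟩, hb⟩ := b
  obtain ⟨h1, h2⟩ := h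
  rcases h1 with h1 | h1
  · exfalso
    refine h2 ⟨(n, ((⌊q⌋₊ + 1 : ℕ) : ℚ)), InZ.nat _ _⟩ (Or.inr ⟨rfl, ?_⟩) (Or.inl h1)
    push_cast
    exact Nat.lt_floor_add_one q
  · exact h1

theorem between_of_TT {n : ℕ} (hT : TT G n) {q q' : ℚ} (h : InZ G n q) (h' : InZ G n q')
    (hlt : q < q') (hn : (n : ℚ) + 1 < q') : ∃ c, InZ G n c ∧ q < c ∧ c < q' := by
  by_cases hq : q < (n : ℚ) + 1
  · refine ⟨((n + 1 : ℕ) : ℚ), InZ.nat _ _, ?_, ?_⟩ <;> push_cast <;> assumption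
  · push Not at hq
    obtain ⟨p, j, -, rfl⟩ := h.dyadic
    obtain ⟨p', j', -, rfl⟩ := h'.dyadic
    refine ⟨((p : ℚ) / 2 ^ j + p' / 2 ^ j') / 2, Or.inr ⟨j + j' + 1, p * 2 ^ j' + p' * 2 ^ j,
      fun x _ => hT x, ?_, ?_⟩, ?_, ?_⟩
    · push_cast
      have h1 : (2 : ℚ) ^ j ≠ 0 := by positivity
      have h2 : (2 : ℚ) ^ j' ≠ 0 := by positivity
      rw [pow_succ, pow_add]
      field_simp
    · linarith
    · linarith
    · linarith

theorem adj_nat (n i : ℕ) (hi : i + 1 ≤ n + 1) (h1 : InZ G n i) (h2 : InZ G n ((i + 1 : ℕ) : ℚ)) :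
    AdjR (rZ G) ⟨(n, (i : ℚ)), h1⟩ ⟨(n, ((i + 1 : ℕ) : ℚ)), h2⟩ := by
  refine ⟨Or.inr ⟨rfl, by push_cast; linarith⟩, ?_⟩
  rintro ⟨⟨m, c⟩, hc⟩ h3 h4
  simp only [rZ] at h3 h4
  have hm : m = n := by omega
  subst hm
  have h3' : (i : ℚ) < c := by
    rcases h3 with h3 | h3
    · exact absurd h3 (lt_irrefl _)
    · exact h3.2
  have h4' : c < ((i + 1 : ℕ) : ℚ) := by
    rcases h4 with h4 | h4
    · exact absurd h4 (lt_irrefl _)
    · exact h4.2
  have hi' : ((i + 1 : ℕ) : ℚ) ≤ (m : ℚ) + 1 := by exact_mod_cast hi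
  obtain ⟨p, rfl⟩ := hc.isNat (by linarith)
  have e1 : i < p := by exact_mod_cast h3'
  have e2 : p < i + 1 := by exact_mod_cast h4'
  omega

/-- if all levels are reached, the only adjacent elements are the natural numbers up to `n + 1` -/
theorem adj_TT {a b : ZZ G} (hT : TT G a.1.1) (h : AdjR (rZ G) a b) :
    ∃ i : ℕ, i + 1 ≤ a.1.1 + 1 ∧ a.1.2 = i ∧ b.1.2 = ((i + 1 : ℕ) : ℚ) := by
  obtain ⟨h1, h2⟩ := adj_same h
  obtain ⟨⟨n, q⟩, ha⟩ := a
  obtain ⟨⟨n', q'⟩, hb⟩ := b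
  simp only at h1 h2 hT ha hb ⊢
  subst h1
  have h3 : q' ≤ (n : ℚ) + 1 := by
    by_contra h3
    push Not at h3
    obtain ⟨c, hc, h4, h5⟩ := between_of_TT hT ha hb h2 h3
    exact h.2 ⟨(n, c), hc⟩ (Or.inr ⟨rfl, h4⟩) (Or.inr ⟨rfl, h5⟩)
  obtain ⟨i, rfl⟩ := ha.isNat (by linarith)
  obtain ⟨k, rfl⟩ := hb.isNat h3
  have h4 : i < k := by exact_mod_cast h2
  have h5 : k ≤ n + 1 := by exact_mod_cast h3
  have h6 : k = i + 1 := by
    by_contra h6
    refine h.2 ⟨(n, ((i + 1 : ℕ) : ℚ)), InZ.nat _ _⟩ (Or.inr ⟨rfl, ?_⟩) (Or.inr ⟨rfl, ?_⟩)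
    · push_cast
      linarith
    · show ((i + 1 : ℕ) : ℚ) < (k : ℚ)
      exact_mod_cast (by omega : i + 1 < k)
  subst h6
  exact ⟨i, h5, rfl, rfl⟩

/-- if not all levels are reached, each element has an immediate successor -/
theorem exists_adj {a : ZZ G} (hT : ¬ TT G a.1.1) : ∃ b, AdjR (rZ G) a b := by
  obtain ⟨⟨n, q⟩, ha⟩ := a
  simp only at hT ha
  by_cases hq : q < (n : ℚ) + 1
  · obtain ⟨i, rfl⟩ := ha.isNat hq.le
    have hi : i < n + 1 := by exact_mod_cast hq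
    exact ⟨⟨(n, ((i + 1 : ℕ) : ℚ)), InZ.nat _ _⟩, adj_nat n i (by omega) ha (InZ.nat _ _)⟩
  · push Not at hq
    -- the maximal level
    obtain ⟨J, hJ, hmax⟩ : ∃ J, LevOK G n J ∧ ∀ j, LevOK G n j → j ≤ J := by
      have h1 : ∃ x, ¬ ∃ y, G n x y := by
        by_contra hc
        push Not at hc
        exact hT fun x => hc x
      classical
      refine ⟨Nat.find h1, fun x hx => not_not.1 (Nat.find_min h1 hx), fun j hj => ?_⟩
      by_contra hc
      exact Nat.find_spec h1 (hj _ (by omega))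
    have h2J : (0 : ℚ) < 2 ^ J := by positivity
    have form : ∀ c, InZ G n c → ∃ P : ℕ, c = P / 2 ^ J := by
      intro c hc
      obtain ⟨p, j, hj, rfl⟩ := hc.dyadic
      have := hmax j hj
      refine ⟨p * 2 ^ (J - j), ?_⟩
      have h1 : (2 : ℚ) ^ j ≠ 0 := by positivity
      have h2 : (2 : ℚ) ^ J = 2 ^ j * 2 ^ (J - j) := by rw [← pow_add]; congr 1; omega
      push_cast
      rw [h2]
      field_simp
    obtain ⟨P, rfl⟩ := form q ha
    have hb : InZ G n (((P + 1 : ℕ) : ℚ) / 2 ^ J) := by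
      refine Or.inr ⟨J, P + 1, hJ, rfl, lt_of_le_of_lt hq ?_⟩
      rw [div_lt_div_iff_of_pos_right h2J]
      push_cast
      linarith
    refine ⟨⟨(n, _), hb⟩, Or.inr ⟨rfl, ?_⟩, ?_⟩
    · show (P : ℚ) / 2 ^ J < ((P + 1 : ℕ) : ℚ) / 2 ^ J
      rw [div_lt_div_iff_of_pos_right h2J]
      push_cast
      linarith
    · rintro ⟨⟨m, c⟩, hc⟩ h3 h4
      simp only [rZ] at h3 h4
      have hm : m = n := by omega
      subst hm
      obtain ⟨P', rfl⟩ := form c hc
      have h3' : (P : ℚ) / 2 ^ J < P' / 2 ^ J := by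
        rcases h3 with h3 | h3
        · exact absurd h3 (lt_irrefl _)
        · exact h3.2
      have h4' : (P' : ℚ) / 2 ^ J < ((P + 1 : ℕ) : ℚ) / 2 ^ J := by
        rcases h4 with h4 | h4
        · exact absurd h4 (lt_irrefl _)
        · exact h4.2
      rw [div_lt_div_iff_of_pos_right h2J] at h3' h4'
      have e1 : P < P' := by exact_mod_cast h3'
      have e2 : P' < P + 1 := by exact_mod_cast h4'
      omega

/-- the blocks of size at least two code the set `TT` -/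
theorem block_iff (N : ℕ) : BlockR (rZ G) (N + 2) ↔ TT G N := by
  constructor
  · rintro ⟨y, h1, h2, h3⟩
    have lev : ∀ i, i < N + 2 → (y i).1.1 = (y 0).1.1 := by
      intro i
      induction i with
      | zero => intro _; rfl
      | succ i ih =>
        intro hi
        rw [← ih (by omega)]
        exact (adj_same (h1 i hi)).1.symm
    by_cases hT : TT G (y 0).1.1
    · obtain ⟨i0, hi0, hy0, -⟩ := adj_TT hT (h1 0 (by omega))
      have pos : ∀ i, i < N + 2 → (y i).1.2 = ((i0 + i : ℕ) : ℚ) ∧ i0 + i ≤ (y 0).1.1 + 1 := by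
        intro i
        induction i with
        | zero => intro _; exact ⟨hy0, by omega⟩
        | succ i ih =>
          intro hi
          obtain ⟨e1, e2⟩ := ih (by omega)
          obtain ⟨k, hk, e3, e4⟩ := adj_TT (by rw [lev i (by omega)]; exact hT) (h1 i hi)
          rw [lev i (by omega)] at hk
          rw [e1] at e3
          have e5 : i0 + i = k := by exact_mod_cast e3
          subst e5
          exact ⟨e4, by omega⟩
      -- the block starts at 0
      have hi00 : i0 = 0 := by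
        by_contra hne
        obtain ⟨k, rfl⟩ := Nat.exists_eq_succ_of_ne_zero hne
        have hA := adj_nat (G := G) (y 0).1.1 k (by omega) (InZ.nat _ _) (InZ.nat _ _)
        refine h2 ⟨((y 0).1.1, (k : ℚ)), InZ.nat _ _⟩ ?_
        have : y 0 = ⟨((y 0).1.1, ((k + 1 : ℕ) : ℚ)), InZ.nat _ _⟩ := by
          apply Subtype.ext
          exact Prod.ext rfl hy0
        rw [this]
        exact hA
      subst hi00
      have hlast := pos (N + 1) (by omega)
      have hN : N + 1 = (y 0).1.1 + 1 := by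
        by_contra hne
        have hA := adj_nat (G := G) (y 0).1.1 (N + 1) (by omega) (InZ.nat _ _) (InZ.nat _ _)
        refine h3 ⟨((y 0).1.1, ((N + 1 + 1 : ℕ) : ℚ)), InZ.nat _ _⟩ ?_
        have : y (N + 2 - 1) = ⟨((y 0).1.1, ((N + 1 : ℕ) : ℚ)), InZ.nat _ _⟩ := by
          apply Subtype.ext
          refine Prod.ext (lev _ (by omega)) ?_
          have := hlast.1
          rw [Nat.zero_add] at this
          exact this
        rw [this]
        exact hA
      have : N = (y 0).1.1 := by omega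
      rw [this]
      exact hT
    · exfalso
      obtain ⟨b, hb⟩ := exists_adj (a := y (N + 2 - 1)) (by rw [lev _ (by omega)]; exact hT)
      exact h3 b hb
  · intro hT
    refine ⟨fun i => ⟨(N, (i : ℚ)), InZ.nat _ _⟩, fun i hi => adj_nat N i (by omega) _ _,
      fun z hz => ?_, fun z hz => ?_⟩
    · obtain ⟨h1, h2⟩ := adj_same hz
      have := z.2.nonneg
      simp only [Nat.cast_zero] at h2
      linarith
    · obtain ⟨k, hk, e1, e2⟩ := adj_TT (a := ⟨(N, ((N + 2 - 1 : ℕ) : ℚ)), InZ.nat _ _⟩) hT hz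
      simp only at hk e1
      have : N + 2 - 1 = k := by exact_mod_cast e1
      omega

end Pool.Agent.X238.Plac
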