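import Pool.Agent.X238.Plac.Omega
import Pool.Agent.X238.Plac.Order

set_option autoImplicit false

/-!
# A recursive order all of whose recursive copies have an undecidable Diophantine problem
-/

namespace Pool.Agent.X238.Plac

open Nat.Partrec (Code)
open Nat.Partrec.Code

/-! ### computable predicates -/

theorem cp_and {α : Type} [Primcodable α] {p q : α → Prop} (hp : ComputablePred p)
    (hq : ComputablePred q) : ComputablePred (fun a => p a ∧ q a) := by
  obtain ⟨_, hp⟩ := hp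
  obtain ⟨_, hq⟩ := hq
  refine ⟨fun a => inferInstance, ?_⟩
  refine (Primrec.and.to_comp.comp hp hq).of_eq fun a => ?_
  simp

theorem cp_not {α : Type} [Primcodable α] {p : α → Prop} (hp : ComputablePred p) :
    ComputablePred (fun a => ¬ p a) := hp.not

theorem cp_imp {α : Type} [Primcodable α] {p q : α → Prop} (hp : ComputablePred p)
    (hq : ComputablePred q) : ComputablePred (fun a => p a → q a) :=
  (cp_not (cp_and hp (cp_not hq))).of_eq fun a => by tauto

theorem cp_comp {α β : Type} [Primcodable α] [Primcodable β] {p : β → Prop}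
    (hp : ComputablePred p) {f : α → β} (hf : Computable f) : ComputablePred (fun a => p (f a)) :=
  ComputablePred.computable_of_manyOneReducible ⟨f, hf, fun _ => Iff.rfl⟩ hp

/-! ### a `Π₂` set which is not `Σ₂` -/

/-- the matrix -/
def GG (n x w : ℕ) : Prop :=
  evaln (Nat.unpair w).2 (Denumerable.ofNat Code n) (Nat.pair n (Nat.pair x (Nat.unpair w).1)) =
    some 0

theorem GG_primrec : PrimrecPred (fun q : ℕ × ℕ × ℕ => GG q.1 q.2.1 q.2.2) := by
  have h : Primrec (fun q : ℕ × ℕ × ℕ => evaln (Nat.unpair q.2.2).2 (Denumerable.ofNat Code q.1)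
      (Nat.pair q.1 (Nat.pair q.2.1 (Nat.unpair q.2.2).1))) := by
    have hu : Primrec (fun q : ℕ × ℕ × ℕ => Nat.unpair q.2.2) :=
      Primrec.unpair.comp (Primrec.snd.comp Primrec.snd)
    refine Nat.Partrec.Code.primrec_evaln.comp (Primrec.pair (Primrec.pair (Primrec.snd.comp hu)
      ((Primrec.ofNat Code).comp Primrec.fst)) ?_)
    exact Primrec₂.natPair.comp Primrec.fst (Primrec₂.natPair.comp
      (Primrec.fst.comp Primrec.snd) (Primrec.fst.comp hu))
  exact Primrec.eq.comp h (Primrec.const (some 0))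

theorem exists_GG (n x : ℕ) : (∃ w, GG n x w) ↔
    ∃ y, 0 ∈ eval (Denumerable.ofNat Code n) (Nat.pair n (Nat.pair x y)) := by
  constructor
  · rintro ⟨w, hw⟩
    exact ⟨_, evaln_sound (Option.mem_def.2 hw)⟩
  · rintro ⟨y, hy⟩
    obtain ⟨k, hk⟩ := evaln_complete.1 hy
    refine ⟨Nat.pair y k, ?_⟩
    unfold GG
    rw [Nat.unpair_pair]
    exact Option.mem_def.1 hk

theorem not_sigma2 (R : ℕ × ℕ × ℕ → Prop) (hR : ComputablePred R) :
    ¬ ∀ n, TT GG n ↔ ∃ x, ∀ y, R (n, x, y) := by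
  intro h
  obtain ⟨dR, hR⟩ := hR
  let f : ℕ → ℕ := fun m => cond (decide (R ((Nat.unpair m).1, (Nat.unpair (Nat.unpair m).2).1,
    (Nat.unpair (Nat.unpair m).2).2))) 1 0
  have hf : Computable f := by
    have hu : Computable (fun m : ℕ => (Nat.unpair m)) := Primrec.unpair.to_comp
    have hu2 : Computable (fun m : ℕ => (Nat.unpair (Nat.unpair m).2)) :=
      hu.comp (Computable.snd.comp hu)
    refine Computable.cond ?_ (Computable.const 1) (Computable.const 0)
    exact hR.comp ((Computable.fst.comp hu).pair ((Computable.fst.comp hu2).pair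
      (Computable.snd.comp hu2)))
  obtain ⟨c, hc⟩ := Nat.Partrec.Code.exists_code.1 (Partrec.nat_iff.1 hf.partrec)
  have key := h (Encodable.encode c)
  have e1 : TT GG (Encodable.encode c) ↔ ∀ x, ∃ y, ¬ R (Encodable.encode c, x, y) := by
    refine forall_congr' fun x => ?_
    rw [exists_GG, Denumerable.ofNat_encode, hc]
    refine exists_congr fun y => ?_
    simp only [PFun.coe_val, Part.mem_some_iff, f, Nat.unpair_pair]
    by_cases hr : R (Encodable.encode c, x, y) <;> simp [hr]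
  rw [e1] at key
  by_cases hx : ∃ x, ∀ y, R (Encodable.encode c, x, y)
  · have := key.2 hx
    obtain ⟨x, hx⟩ := hx
    obtain ⟨y, hy⟩ := this x
    exact hy (hx y)
  · refine hx (key.1 fun x => ?_)
    by_contra hc'
    push Not at hc'
    exact hx ⟨x, hc'⟩

/-! ### adjacency and blocks in a recursive order whose Diophantine problem is decidable -/

/-- adjacency of codes -/
def AdjN (L : RecOrder) (a b : ℕ) : Prop :=
  L.mem a ∧ L.mem b ∧ L.lt a b ∧ ¬ Dioph L (sysCode a b)

theorem adjN_computable {L : RecOrder} (h : ComputablePred (Dioph L)) :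
    ComputablePred (fun p : ℕ × ℕ => AdjN L p.1 p.2) :=
  cp_and (cp_comp L.mem_computable Computable.fst) (cp_and (cp_comp L.mem_computable
    Computable.snd) (cp_and L.lt_computable (cp_not (cp_comp h sysCode_computable))))

theorem adjN_iff {L : RecOrder} (a b : L.Carrier) : AdjN L a.1 b.1 ↔ AdjR L.less a b := by
  constructor
  · rintro ⟨ha, hb, h1, h2⟩
    rw [dioph_sysCode L ha hb h1] at h2
    exact ⟨h1, fun c h3 h4 => h2 ⟨c.1, c.2, h3, h4⟩⟩
  · rintro ⟨h1, h2⟩
    refine ⟨a.2, b.2, h1, ?_⟩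
    rw [dioph_sysCode L a.2 b.2 h1]
    rintro ⟨c, hc, h3, h4⟩
    exact h2 ⟨c, hc⟩ h3 h4

theorem adjN_exists {L : RecOrder} {a b : ℕ} (h : AdjN L a b) : ∃ (ha : L.mem a) (hb : L.mem b),
    AdjR L.less ⟨a, ha⟩ ⟨b, hb⟩ := ⟨h.1, h.2.1, (adjN_iff ⟨a, h.1⟩ ⟨b, h.2.1⟩).1 h⟩

/-- the matrix of the `Σ₂` description of the blocks -/
def RR (L : RecOrder) (q : ℕ × ℕ × ℕ) : Prop :=
  ((Nat.unpair q.2.2).1 < q.1 + 2 →
    L.mem ((Denumerable.ofNat (List ℕ) q.2.1).getD (Nat.unpair q.2.2).1 0)) ∧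
  ((Nat.unpair q.2.2).1 + 1 < q.1 + 2 →
    AdjN L ((Denumerable.ofNat (List ℕ) q.2.1).getD (Nat.unpair q.2.2).1 0)
      ((Denumerable.ofNat (List ℕ) q.2.1).getD ((Nat.unpair q.2.2).1 + 1) 0)) ∧
  ¬ AdjN L (Nat.unpair q.2.2).2 ((Denumerable.ofNat (List ℕ) q.2.1).getD 0 0) ∧
  ¬ AdjN L ((Denumerable.ofNat (List ℕ) q.2.1).getD (q.1 + 1) 0) (Nat.unpair q.2.2).2

theorem RR_computable {L : RecOrder} (h : ComputablePred (Dioph L)) : ComputablePred (RR L) := by
  have hA := adjN_computable h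
  have hn : Computable (fun q : ℕ × ℕ × ℕ => q.1) := Computable.fst
  have hl : Computable (fun q : ℕ × ℕ × ℕ => Denumerable.ofNat (List ℕ) q.2.1) :=
    (Computable.ofNat (List ℕ)).comp (Computable.fst.comp Computable.snd)
  have hu : Computable (fun q : ℕ × ℕ × ℕ => Nat.unpair q.2.2) :=
    Primrec.unpair.to_comp.comp (Computable.snd.comp Computable.snd)
  have hi : Computable (fun q : ℕ × ℕ × ℕ => (Nat.unpair q.2.2).1) := Computable.fst.comp hu
  have hz : Computable (fun q : ℕ × ℕ × ℕ => (Nat.unpair q.2.2).2) := Computable.snd.comp hu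
  have hget : ∀ {f : ℕ × ℕ × ℕ → ℕ}, Computable f → Computable (fun q : ℕ × ℕ × ℕ =>
      (Denumerable.ofNat (List ℕ) q.2.1).getD (f q) 0) := by
    intro f hf
    exact ((Primrec.list_getD (0 : ℕ)).to_comp).comp hl hf
  have add : ∀ {f : ℕ × ℕ × ℕ → ℕ} (k : ℕ), Computable f → Computable (fun q => f q + k) :=
    fun k hf => Primrec.nat_add.to_comp.comp hf (Computable.const k)
  have lt : ∀ {f g : ℕ × ℕ × ℕ → ℕ}, Computable f → Computable g →
      ComputablePred (fun q => f q < g q) := by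
    intro f g hf hg
    have h0 : ComputablePred (fun p : ℕ × ℕ => p.1 < p.2) := by
      obtain ⟨d, h⟩ := Primrec.nat_lt
      exact ⟨_, h.to_comp⟩
    exact cp_comp h0 (hf.pair hg)
  refine cp_and (cp_imp (lt hi (add 2 hn)) (cp_comp L.mem_computable (hget hi)))
    (cp_and (cp_imp (lt (add 1 hi) (add 2 hn)) (cp_comp hA ((hget hi).pair (hget (add 1 hi)))))
    (cp_and (cp_not (cp_comp hA (hz.pair (hget (Computable.const 0)))))
    (cp_not (cp_comp hA ((hget (add 1 hn)).pair hz)))))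

theorem block_RR (L : RecOrder) (n : ℕ) : BlockR L.less (n + 2) ↔ ∃ x, ∀ y, RR L (n, x, y) := by
  constructor
  · rintro ⟨y, h1, h2, h3⟩
    refine ⟨Encodable.encode ((List.range (n + 2)).map fun i => (y i).1), fun q => ?_⟩
    have hg : ∀ i < n + 2, ((List.range (n + 2)).map fun i => (y i).1).getD i 0 = (y i).1 := by
      intro i hi
      rw [List.getD_eq_getElem?_getD, List.getElem?_map, List.getElem?_range hi]
      rfl
    unfold RR
    simp only [Denumerable.ofNat_encode]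
    refine ⟨fun hi => ?_, fun hi => ?_, ?_, ?_⟩
    · rw [hg _ hi]
      exact (y _).2
    · rw [hg _ hi, hg _ (by omega), adjN_iff]
      exact h1 _ hi
    · rw [hg 0 (by omega)]
      intro h
      exact h2 ⟨_, h.1⟩ ((adjN_iff ⟨_, h.1⟩ (y 0)).1 h)
    · rw [hg (n + 1) (by omega)]
      intro h
      exact h3 ⟨_, h.2.1⟩ ((adjN_iff (y (n + 1)) ⟨_, h.2.1⟩).1 h)
  · rintro ⟨x, hx⟩
    have hm : ∀ i < n + 2, L.mem ((Denumerable.ofNat (List ℕ) x).getD i 0) := by
      intro i hi
      have := (hx (Nat.pair i 0)).1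
      simp only [Nat.unpair_pair] at this
      exact this hi
    have h0 := hm 0 (by omega)
    classical
    let y : ℕ → L.Carrier := fun i => if hi : i < n + 2 then ⟨_, hm i hi⟩ else ⟨_, h0⟩
    have hy : ∀ i (hi : i < n + 2), y i = ⟨_, hm i hi⟩ := fun i hi => dif_pos hi
    refine ⟨y, fun i hi => ?_, fun z hz => ?_, fun z hz => ?_⟩
    · have := (hx (Nat.pair i 0)).2.1
      simp only [Nat.unpair_pair] at this
      rw [← adjN_iff, hy _ hi, hy i (by omega)]
      exact this hi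
    · have := (hx (Nat.pair 0 z.1)).2.2.1
      simp only [Nat.unpair_pair] at this
      rw [← adjN_iff, hy 0 (by omega)] at hz
      exact this hz
    · have := (hx (Nat.pair 0 z.1)).2.2.2
      simp only [Nat.unpair_pair] at this
      rw [← adjN_iff, show n + 2 - 1 = n + 1 from rfl, hy (n + 1) (by omega)] at hz
      exact this hz

/-! ### the order -/

/-- the level `j` is reached within `w` -/
def Lev (n j w : ℕ) : Prop := ∀ x < j, ∃ y < w, GG n x y

theorem Lev.mono {n j w w' : ℕ} (h : Lev n j w) (hw : w ≤ w') : Lev n j w' := fun x hx => by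
  obtain ⟨y, hy, h⟩ := h x hx
  exact ⟨y, by omega, h⟩

/-- `w` is the least bound for the level `j` -/
def Lea (n j w : ℕ) : Prop := Lev n j w ∧ (w = 0 ∨ ¬ Lev n j (w - 1))

theorem Lea.unique {n j w w' : ℕ} (h : Lea n j w) (h' : Lea n j w') : w = w' := by
  have key : ∀ {w w' : ℕ}, Lea n j w → Lea n j w' → ¬ w < w' := by
    intro w w' h h' hlt
    rcases h'.2 with h2 | h2
    · omega
    · exact h2 (h.1.mono (by omega))
  have h1 := key h h'
  have h2 := key h' h
  omega

theorem exists_lea {n j : ℕ} : LevOK GG n j ↔ ∃ w, Lea n j w := by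
  constructor
  · intro h
    have h1 : ∃ w, Lev n j w := by
      induction j with
      | zero => exact ⟨0, fun x hx => absurd hx (by omega)⟩
      | succ j ih =>
        obtain ⟨w, hw⟩ := ih (h.mono (by omega))
        obtain ⟨y, hy⟩ := h j (by omega)
        refine ⟨max w (y + 1), fun x hx => ?_⟩
        by_cases hxj : x = j
        · subst hxj
          exact ⟨y, by omega, hy⟩
        · obtain ⟨y', hy', h'⟩ := hw x (by omega)
          exact ⟨y', by omega, h'⟩
    classical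
    refine ⟨Nat.find h1, Nat.find_spec h1, ?_⟩
    by_cases h0 : Nat.find h1 = 0
    · exact Or.inl h0
    · exact Or.inr (Nat.find_min h1 (by omega))
  · rintro ⟨w, h, -⟩ x hx
    obtain ⟨y, -, hy⟩ := h x hx
    exact ⟨y, hy⟩

/-- the components of the element `m` -/
def c1 (m : ℕ) : ℕ := (Nat.unpair m).1
def c2 (m : ℕ) : ℕ := (Nat.unpair (Nat.unpair m).2).1
def c3 (m : ℕ) : ℕ := (Nat.unpair (Nat.unpair (Nat.unpair m).2).2).1
def c4 (m : ℕ) : ℕ := (Nat.unpair (Nat.unpair (Nat.unpair m).2).2).2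
def mk4 (n p j w : ℕ) : ℕ := Nat.pair n (Nat.pair p (Nat.pair j w))

theorem c1_mk4 (n p j w : ℕ) : c1 (mk4 n p j w) = n := by simp [c1, mk4]
theorem c2_mk4 (n p j w : ℕ) : c2 (mk4 n p j w) = p := by simp [c2, mk4]
theorem c3_mk4 (n p j w : ℕ) : c3 (mk4 n p j w) = j := by simp [c3, mk4]
theorem c4_mk4 (n p j w : ℕ) : c4 (mk4 n p j w) = w := by simp [c4, mk4]
theorem mk4_c (m : ℕ) : mk4 (c1 m) (c2 m) (c3 m) (c4 m) = m := by simp [c1, c2, c3, c4, mk4]

theorem c1_primrec : Primrec c1 := Primrec.fst.comp Primrec.unpair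
theorem c2_primrec : Primrec c2 :=
  Primrec.fst.comp (Primrec.unpair.comp (Primrec.snd.comp Primrec.unpair))
theorem c3_primrec : Primrec c3 := Primrec.fst.comp (Primrec.unpair.comp (Primrec.snd.comp
  (Primrec.unpair.comp (Primrec.snd.comp Primrec.unpair))))
theorem c4_primrec : Primrec c4 := Primrec.snd.comp (Primrec.unpair.comp (Primrec.snd.comp
  (Primrec.unpair.comp (Primrec.snd.comp Primrec.unpair))))

/-- `m` codes an element -/
def MemZ (m : ℕ) : Prop :=
  (c3 m = 0 ∨ (c2 m % 2 = 1 ∧ (c1 m + 1) * 2 ^ (c3 m) < c2 m)) ∧ Lea (c1 m) (c3 m) (c4 m)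

/-- the order of the codes -/
def LtZ (m m' : ℕ) : Prop :=
  c1 m < c1 m' ∨ (c1 m = c1 m' ∧ c2 m * 2 ^ (c3 m') < c2 m' * 2 ^ (c3 m))

theorem pow2_primrec : Primrec (fun j : ℕ => 2 ^ j) := by
  have h : Primrec (fun j : ℕ => (Nat.rec 1 (fun _ r => 2 * r) j : ℕ)) := by
    refine Primrec.nat_rec₁ (1 : ℕ) ?_
    exact Primrec.nat_mul.comp (Primrec.const 2) Primrec.snd
  refine h.of_eq fun j => ?_
  induction j with
  | zero => rfl
  | succ j ih =>
    simp only at ih ⊢
    rw [ih, pow_succ]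
    ring

theorem lev_primrec : PrimrecPred (fun q : ℕ × ℕ × ℕ => Lev q.1 q.2.1 q.2.2) := by
  -- `∃ y < w, GG n x y`
  have h1 : PrimrecRel (fun (y : ℕ) (b : ℕ × ℕ) => GG b.1 b.2 y) :=
    GG_primrec.comp ((Primrec.fst.comp Primrec.snd).pair ((Primrec.snd.comp Primrec.snd).pair
      Primrec.fst))
  have h2 : PrimrecRel (fun (x : ℕ) (b : ℕ × ℕ) => ∃ y < b.2, GG b.1 x y) := by
    have := (h1.exists_mem_list).comp (f := fun p : ℕ × ℕ × ℕ => List.range p.2.2)
      (g := fun p : ℕ × ℕ × ℕ => (p.2.1, p.1))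
      (Primrec.list_range.comp (Primrec.snd.comp Primrec.snd))
      ((Primrec.fst.comp Primrec.snd).pair Primrec.fst)
    exact this.of_eq fun p => by simp
  have := (h2.forall_mem_list).comp (f := fun p : ℕ × ℕ × ℕ => List.range p.2.1)
      (g := fun p : ℕ × ℕ × ℕ => (p.1, p.2.2))
      (Primrec.list_range.comp (Primrec.fst.comp Primrec.snd))
      (Primrec.fst.pair (Primrec.snd.comp Primrec.snd))
  exact this.of_eq fun p => by simp [Lev]

theorem memZ_primrec : PrimrecPred MemZ := by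
  have h1 : PrimrecPred (fun m => c3 m = 0) := Primrec.eq.comp c3_primrec (Primrec.const 0)
  have h2 : PrimrecPred (fun m => c2 m % 2 = 1) :=
    Primrec.eq.comp (Primrec.nat_mod.comp c2_primrec (Primrec.const 2)) (Primrec.const 1)
  have h3 : PrimrecPred (fun m => (c1 m + 1) * 2 ^ (c3 m) < c2 m) :=
    Primrec.nat_lt.comp (Primrec.nat_mul.comp (Primrec.nat_add.comp c1_primrec (Primrec.const 1))
      (pow2_primrec.comp c3_primrec)) c2_primrec
  have h4 : PrimrecPred (fun m => Lev (c1 m) (c3 m) (c4 m)) :=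
    lev_primrec.comp (c1_primrec.pair (c3_primrec.pair c4_primrec))
  have h5 : PrimrecPred (fun m => Lev (c1 m) (c3 m) (c4 m - 1)) :=
    lev_primrec.comp (c1_primrec.pair (c3_primrec.pair
      (Primrec.nat_sub.comp c4_primrec (Primrec.const 1))))
  have h6 : PrimrecPred (fun m => c4 m = 0) := Primrec.eq.comp c4_primrec (Primrec.const 0)
  exact (h1.or (h2.and h3)).and (h4.and (h6.or h5.not))

theorem ltZ_primrec : PrimrecPred (fun p : ℕ × ℕ => LtZ p.1 p.2) := by
  have a1 : Primrec (fun p : ℕ × ℕ => c1 p.1) := c1_primrec.comp Primrec.fst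
  have a1' : Primrec (fun p : ℕ × ℕ => c1 p.2) := c1_primrec.comp Primrec.snd
  have a2 : Primrec (fun p : ℕ × ℕ => c2 p.1) := c2_primrec.comp Primrec.fst
  have a2' : Primrec (fun p : ℕ × ℕ => c2 p.2) := c2_primrec.comp Primrec.snd
  have a3 : Primrec (fun p : ℕ × ℕ => 2 ^ (c3 p.1)) :=
    pow2_primrec.comp (c3_primrec.comp Primrec.fst)
  have a3' : Primrec (fun p : ℕ × ℕ => 2 ^ (c3 p.2)) :=
    pow2_primrec.comp (c3_primrec.comp Primrec.snd)
  exact PrimrecPred.or (Primrec.nat_lt.comp a1 a1') (PrimrecPred.and (Primrec.eq.comp a1 a1')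
    (Primrec.nat_lt.comp (Primrec.nat_mul.comp a2 a3') (Primrec.nat_mul.comp a2' a3)))

theorem PrimrecPred.toCP {α : Type} [Primcodable α] {p : α → Prop} (h : PrimrecPred p) :
    ComputablePred p := by
  obtain ⟨d, h⟩ := h
  exact ⟨d, h.to_comp⟩

/-- the position of the element `m` -/
def posZ (m : ℕ) : ℚ := (c2 m : ℚ) / 2 ^ (c3 m)

theorem ltZ_iff (m m' : ℕ) : LtZ m m' ↔ c1 m < c1 m' ∨ (c1 m = c1 m' ∧ posZ m < posZ m') := by
  unfold LtZ posZ
  have h1 : (0 : ℚ) < 2 ^ (c3 m) := by positivity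
  have h2 : (0 : ℚ) < 2 ^ (c3 m') := by positivity
  rw [div_lt_div_iff₀ h1 h2]
  refine or_congr Iff.rfl (and_congr_right fun _ => ?_)
  constructor
  · intro h
    exact_mod_cast h
  · intro h
    exact_mod_cast h

theorem posZ_inj {m m' : ℕ} (h : MemZ m) (h' : MemZ m') (e1 : c1 m = c1 m')
    (e2 : posZ m = posZ m') : m = m' := by
  have key : ∀ {m m' : ℕ}, MemZ m → MemZ m' → posZ m = posZ m' → ¬ c3 m < c3 m' := by
    intro m m' h h' e hlt
    unfold posZ at e
    have h1 : (2 : ℚ) ^ (c3 m) ≠ 0 := by positivity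
    have h2 : (2 : ℚ) ^ (c3 m') = 2 ^ (c3 m) * 2 ^ (c3 m' - c3 m) := by
      rw [← pow_add]; congr 1; omega
    rw [h2] at e
    have h3 : (2 : ℚ) ^ (c3 m' - c3 m) ≠ 0 := by positivity
    have e' : (c2 m : ℚ) * 2 ^ (c3 m' - c3 m) = c2 m' := by
      field_simp at e
      exact e
    have e'' : c2 m * 2 ^ (c3 m' - c3 m) = c2 m' := by exact_mod_cast e'
    obtain ⟨k, hk⟩ := Nat.exists_eq_add_of_lt hlt
    rcases h'.1 with h4 | ⟨h4, -⟩
    · omega
    · have h5 : c3 m' - c3 m = k + 1 := by omega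
      rw [h5, pow_succ] at e''
      rw [← e'', ← mul_assoc, Nat.mul_mod_left] at h4
      exact absurd h4 (by norm_num)
  have e3 : c3 m = c3 m' := by
    have h1 := key h h' e2
    have h2 := key h' h e2.symm
    omega
  have e4 : c2 m = c2 m' := by
    unfold posZ at e2
    rw [e3] at e2
    have h1 : (2 : ℚ) ^ (c3 m') ≠ 0 := by positivity
    have := (div_left_inj' h1).1 e2
    exact_mod_cast this
  have h5 := h.2
  rw [e1, e3] at h5
  have e5 := h5.unique h'.2
  rw [← mk4_c m, ← mk4_c m', e1, e3, e4, e5]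

/-- the order of the elements -/
def ordZ : RecOrder where
  mem := MemZ
  lt := LtZ
  mem_computable := PrimrecPred.toCP memZ_primrec
  lt_computable := PrimrecPred.toCP ltZ_primrec
  irrefl := fun a _ h => by
    rw [ltZ_iff] at h
    rcases h with h | h
    · exact lt_irrefl _ h
    · exact lt_irrefl _ h.2
  trans := fun a b c _ _ _ h1 h2 => by
    rw [ltZ_iff] at h1 h2 ⊢
    rcases h1 with h1 | h1 <;> rcases h2 with h2 | h2
    · exact Or.inl (by omega)
    · exact Or.inl (by omega)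
    · exact Or.inl (by omega)
    · exact Or.inr ⟨by omega, h1.2.trans h2.2⟩
  total := fun a b ha hb hne => by
    rw [ltZ_iff, ltZ_iff]
    rcases lt_trichotomy (c1 a) (c1 b) with h | h | h
    · exact Or.inl (Or.inl h)
    · rcases lt_trichotomy (posZ a) (posZ b) with h' | h' | h'
      · exact Or.inl (Or.inr ⟨h, h'⟩)
      · exact absurd (posZ_inj ha hb h h') hne
      · exact Or.inr (Or.inr ⟨h.symm, h'⟩)
    · exact Or.inr (Or.inl h)

theorem memZ_inZ {m : ℕ} (h : MemZ m) : InZ GG (c1 m) (posZ m) := by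
  rcases h.1 with h1 | h1
  · refine Or.inl ⟨c2 m, ?_⟩
    unfold posZ
    rw [h1]
    simp
  · refine Or.inr ⟨c3 m, c2 m, exists_lea.2 ⟨_, h.2⟩, rfl, ?_⟩
    unfold posZ
    have h2 : (0 : ℚ) < 2 ^ (c3 m) := by positivity
    rw [lt_div_iff₀ h2]
    exact_mod_cast h1.2

theorem exists_mem {n : ℕ} {q : ℚ} (h : InZ GG n q) : ∃ m, MemZ m ∧ c1 m = n ∧ posZ m = q := by
  have hnat : ∀ p : ℕ, ∃ m, MemZ m ∧ c1 m = n ∧ posZ m = (p : ℚ) := by
    intro p
    have h0 : LevOK GG n 0 := fun x hx => absurd hx (by omega)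
    obtain ⟨w, hw⟩ := exists_lea.1 h0
    refine ⟨mk4 n p 0 w, ?_, c1_mk4 _ _ _ _, ?_⟩
    · unfold MemZ
      rw [c1_mk4, c2_mk4, c3_mk4, c4_mk4]
      exact ⟨Or.inl rfl, hw⟩
    · unfold posZ
      rw [c2_mk4, c3_mk4]
      simp
  rcases h with ⟨p, rfl⟩ | ⟨j, p, hj, rfl, hlt⟩
  · exact hnat p
  · induction j generalizing p with
    | zero =>
      obtain ⟨m, h1, h2, h3⟩ := hnat p
      exact ⟨m, h1, h2, by rw [h3]; simp⟩
    | succ j ih =>
      rcases Nat.even_or_odd p with he | ho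
      · obtain ⟨r, rfl⟩ := he
        have e : ((r + r : ℕ) : ℚ) / 2 ^ (j + 1) = r / 2 ^ j := by
          push_cast
          rw [pow_succ]
          field_simp
          ring
        rw [e] at hlt ⊢
        exact ih r (hj.mono (by omega)) hlt
      · obtain ⟨w, hw⟩ := exists_lea.1 hj
        refine ⟨mk4 n p (j + 1) w, ?_, c1_mk4 _ _ _ _, ?_⟩
        · unfold MemZ
          rw [c1_mk4, c2_mk4, c3_mk4, c4_mk4]
          refine ⟨Or.inr ⟨Nat.odd_iff.1 ho, ?_⟩, hw⟩
          have h2 : (0 : ℚ) < 2 ^ (j + 1) := by positivity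
          rw [lt_div_iff₀ h2] at hlt
          exact_mod_cast hlt
        · unfold posZ
          rw [c2_mk4, c3_mk4]

theorem ordZ_iso : ∃ e : ordZ.Carrier ≃ ZZ GG, ∀ a b, ordZ.less a b ↔ rZ GG (e a) (e b) := by
  let f : ordZ.Carrier → ZZ GG := fun a => ⟨(c1 a.1, posZ a.1), memZ_inZ a.2⟩
  have hf : Function.Bijective f := by
    constructor
    · intro a b h
      have h := congrArg Subtype.val h
      simp only [f, Prod.mk.injEq] at h
      exact Subtype.ext (posZ_inj a.2 b.2 h.1 h.2)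
    · rintro ⟨⟨n, q⟩, h⟩
      obtain ⟨m, h1, h2, h3⟩ := exists_mem h
      refine ⟨⟨m, h1⟩, Subtype.ext (Prod.ext h2 h3)⟩
  refine ⟨Equiv.ofBijective f hf, fun a b => ?_⟩
  exact ltZ_iff a.1 b.1

theorem intrinsic (L' : RecOrder) (h : ∃ e : ordZ.Carrier ≃ L'.Carrier, ∀ a b,
    ordZ.less a b ↔ L'.less (e a) (e b)) : ¬ ComputablePred (Dioph L') := by
  intro hc
  obtain ⟨e, he⟩ := h
  obtain ⟨e', he'⟩ := ordZ_iso
  refine not_sigma2 (RR L') (RR_computable hc) fun n => ?_
  rw [← block_RR, ← BlockR.map_iff e he, BlockR.map_iff e' he', block_iff]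

end Pool.Agent.X238.Plac
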